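import Pool.Agent.H20.RT.Stmts

/-!
Row RV1 of board rt (helper12).
-/

set_option autoImplicit false

namespace Pool.RT

theorem revk_lt (k : ℕ) : ∀ n : ℕ, revk k n < 10 ^ k := by
  induction k with
  | zero => intro n; simp [revk]
  | succ k ih =>
    intro n
    have h1 := ih (n / 10)
    have h2 : n % 10 < 10 := Nat.mod_lt _ (by norm_num)
    have h3 : (n % 10) * 10 ^ k ≤ 9 * 10 ^ k := Nat.mul_le_mul_right _ (by omega)
    have h4 : 10 ^ (k + 1) = 10 * 10 ^ k := by ring
    simp only [revk]
    rw [h4]
    omega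

theorem revk_split (a : ℕ) : ∀ b x y : ℕ, x < 10 ^ a →
    revk (a + b) (x + 10 ^ a * y) = revk a x * 10 ^ b + revk b y := by
  induction a with
  | zero =>
    intro b x y hx
    have h0 : x = 0 := by simpa using hx
    subst h0
    simp [revk]
  | succ a ih =>
    intro b x y hx
    have h4 : 10 ^ (a + 1) * y = 10 * (10 ^ a * y) := by ring
    have h5 : (10 : ℕ) ^ (a + 1) = 10 * 10 ^ a := by ring
    have h6 : (x + 10 ^ (a + 1) * y) % 10 = x % 10 := by
      rw [h4]; omega
    have h7 : (x + 10 ^ (a + 1) * y) / 10 = x / 10 + 10 ^ a * y := by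
      rw [h4]; omega
    have h8 : x / 10 < 10 ^ a := by
      rw [h5] at hx; omega
    have h9 : a + 1 + b = (a + b) + 1 := by ring
    rw [h9]
    simp only [revk]
    rw [h6, h7, ih b (x / 10) y h8]
    ring

theorem revk_one (s : ℕ) (hs : s < 10) : revk 1 s = s := by
  simp only [revk]
  rw [Nat.mod_eq_of_lt hs]
  simp

theorem revk_revk (k : ℕ) : ∀ n : ℕ, n < 10 ^ k → revk k (revk k n) = n := by
  induction k with
  | zero =>
    intro n hn
    have h0 : n = 0 := by simpa using hn
    subst h0
    simp [revk]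
  | succ k ih =>
    intro n hn
    have h5 : (10 : ℕ) ^ (k + 1) = 10 * 10 ^ k := by ring
    have h8 : n / 10 < 10 ^ k := by
      rw [h5] at hn; omega
    have h2 : n % 10 < 10 := Nat.mod_lt _ (by norm_num)
    have h1 : revk (k + 1) n = revk k (n / 10) + 10 ^ k * (n % 10) := by
      simp only [revk]
      ring
    rw [h1, revk_split k 1 _ _ (revk_lt k _), ih _ h8, revk_one _ h2]
    omega

theorem RV1_thm : RV1Stmt := by
  refine ⟨revk_lt, revk_revk, revk_split, ?_, ?_⟩
  · intro k n hn
    have h := revk_split k 1 n 0 hn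
    have h0 : revk 1 0 = 0 := revk_one 0 (by norm_num)
    rw [h0] at h
    simp only [mul_zero, add_zero, pow_one] at h
    rw [h]
    ring
  · intro k n
    simp only [revk]
    have h1 : (10 * n) % 10 = 0 := by omega
    have h2 : (10 * n) / 10 = n := by omega
    rw [h1, h2]
    simp

end Pool.RT
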